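import Mathlib

namespace Pool.Agent.Results.MP_71d783_pr.Chain
open MeasureTheory ProbabilityTheory Set
open scoped symmDiff Classical

section defs
variable {V : Type} (G : SimpleGraph V)

/-- i.i.d. uniform labels -/
noncomputable def P (V : Type) : Measure (V → unitInterval) := Measure.infinitePi fun _ => volume

/-- some measurable `Aut(G)`-equivariant map of the labels, with values `C`-indexed relations on
vertices, is almost surely `Good` -/
def HasFIID (C : Type) (Good : (C → V → V → Prop) → Prop) : Prop :=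
  ∃ F : (V → unitInterval) → C → V → V → Prop, (∀ c x y, MeasurableSet {ω | F ω c x y}) ∧
    (∀ (φ : G ≃g G) ω c x y, F (ω ∘ φ.symm) c (φ x) (φ y) ↔ F ω c x y) ∧ ∀ᵐ ω ∂P V, Good (F ω)

def IsMatching (M : Unit → V → V → Prop) : Prop :=
  (∀ x y, M () x y → G.Adj x y ∧ M () y x) ∧ ∀ x, ∃! y, M () x y

def IsBalanced (d : ℕ) (O : Unit → V → V → Prop) : Prop :=
  (∀ x y, O () x y → G.Adj x y) ∧ (∀ x y, G.Adj x y → (O () x y ↔ ¬ O () y x)) ∧
    ∀ v, {y | O () v y}.encard = d ∧ {x | O () x v}.encard = d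

def IsSchreier (d : ℕ) (D : Fin d → V → V → Prop) : Prop :=
  (∀ c x y, D c x y → G.Adj x y) ∧
    (∀ x y, G.Adj x y → ∃! p : Fin d × Bool, if p.2 then D p.1 x y else D p.1 y x) ∧
    (∀ c x, ∃! y, D c x y) ∧ ∀ c y, ∃! x, D c x y

variable {G}
instance : IsProbabilityMeasure (P V) := by unfold P; infer_instance

lemma bal {d : ℕ} {D : Fin d → V → V → Prop} (h : IsSchreier G d D) :
    IsBalanced G d fun _ x y => ∃ c, D c x y := by
  obtain ⟨h1, h2, h3, h4⟩ := h
  have u : ∀ c c' x y, D c x y → D c' x y → c = c' := fun c c' x y a b =>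
    congrArg Prod.fst ((h2 x y (h1 _ _ _ a)).unique (y₁ := (c, true)) (y₂ := (c', true)) a b)
  have key : ∀ R : Fin d → V → Prop, (∀ c, ∃! y, R c y) → (∀ c c' y, R c y → R c' y → c = c') →
      {y | ∃ c, R c y}.encard = d := fun R a b => by
    choose f hf hu using a
    rw [show {y | ∃ c, R c y} = f '' univ by ext y; simp only [mem_ofPred, mem_image]; grind,
      (show Function.Injective f from fun c c' e => b _ _ _ (hf c) (e ▸ hf c')).encard_image]
    simp
  refine ⟨fun x y ⟨c, h⟩ => h1 c x y h, fun x y h => ⟨fun ⟨c, a⟩ ⟨c', b⟩ => ?_, fun a => ?_⟩,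
    fun v => ⟨key _ (h3 · v) fun c c' y => u c c' v y, key _ (h4 · v) fun c c' y => u c c' y v⟩⟩
  · simpa using (h2 x y h).unique (y₁ := (c, true)) (y₂ := (c', false)) a b
  · obtain ⟨⟨c, _ | _⟩, b, -⟩ := h2 x y h
    exacts [absurd ⟨c, b⟩ a, ⟨c, b⟩]

lemma mp (e : V ≃ V) : MeasurePreserving (fun ω : V → unitInterval => ω ∘ e) (P V) (P V) :=
  ⟨by fun_prop, Measure.map_infinitePi_infinitePi_of_inj e.injective⟩

lemma not_half {E : Set (V → unitInterval)} (hE : MeasurableSet E) (h : ∀ s : Finset V,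
    ∃ e : V ≃ V, (∀ v ∈ s, e v ∉ s) ∧ (fun ω => ω ∘ e) ⁻¹' E =ᵐ[P V] E) : (P V).real E ≠ 1 / 2 := by
  intro h0
  obtain ⟨t, ht, h1⟩ := exists_measure_symmDiff_lt_of_generateFrom_isSetRing (μ := P V)
    isSetRing_measurableCylinders ⟨{univ}, by simp, singleton_subset_iff.2 (univ_mem_measurableCylinders _),
      by simp⟩
    generateFrom_measurableCylinders.symm hE (ε := .ofReal (1 / 100)) (by simp)
  have mt := MeasurableSet.of_mem_measurableCylinders ht
  obtain ⟨s, S, hS, rfl⟩ := (mem_measurableCylinders t).1 ht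
  obtain ⟨e, h2, h3⟩ := h s
  replace h1 : (P V).real (cylinder s S ∆ E) ≤ 1 / 100 :=
    ENNReal.toReal_le_of_le_ofReal (by norm_num) h1.le
  have a := (abs_le.1 ((abs_measureReal_sub_le_measureReal_symmDiff mt.nullMeasurableSet
    hE.nullMeasurableSet).trans h1)).2
  have b : (P V).real (cylinder s S ∩ (fun ω => ω ∘ e) ⁻¹' cylinder s S) =
      (P V).real (cylinder s S) * (P V).real (cylinder s S) := by
    have i := ((iIndepFun_infinitePi (P := fun _ : V => (volume : Measure unitInterval))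
      (X := fun _ => id) fun _ => measurable_id).indepFun_finset s (s.image e)
      (Finset.disjoint_right.2 (by simpa using h2)) fun i => measurable_pi_apply i).comp
      measurable_id (ψ := fun v (i : s) => v ⟨e i, Finset.mem_image_of_mem _ i.2⟩) (by fun_prop)
    nth_rw 2 [← (mp e).measureReal_preimage mt.nullMeasurableSet]
    exact (congrArg _ (i.measure_inter_preimage_eq_mul _ _ hS hS)).trans ENNReal.toReal_mul
  have c : (P V).real (E ∩ (fun ω => ω ∘ e) ⁻¹' E) ≤ _ := (measureReal_mono (s₂ := cylinder s S ∩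
    (fun ω => ω ∘ e) ⁻¹' cylinder s S ∪ (cylinder s S ∆ E ∪ (fun ω => ω ∘ e) ⁻¹' (cylinder s S ∆ E)))
    fun ω => by simp only [mem_union, mem_inter_iff, mem_preimage, mem_symmDiff]; tauto).trans
    ((measureReal_union_le _ _).trans (add_le_add_right (measureReal_union_le _ _) _))
  rw [measureReal_congr ((ae_eq_refl E).inter h3), inter_self, b,
    (mp e).measureReal_preimage (mt.symmDiff hE).nullMeasurableSet] at c
  nlinarith [measureReal_nonneg (μ := P V) (s := cylinder s S)]
end defs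

abbrev V := ℤ × Bool × Fin 4
def nb0 (p : Bool × Fin 4) (j : Fin 4) : V :=
  if j ≠ p.2 then (0, p.1, j) else (if j ≠ 0 then 0 else if p.1 then 1 else -1, !p.1, j)
def nb (x : V) (j : Fin 4) : V := (x.1 + (nb0 x.2 j).1, (nb0 x.2 j).2)

lemma nb_eq {x y : V} {j : Fin 4} : y = nb x j ↔ (y.1 - x.1, y.2) = nb0 x.2 j := by
  simp only [nb, Prod.ext_iff, sub_eq_iff_eq_add']
lemma nb_inj (x : V) : Function.Injective (nb x) := fun i j h => by
  obtain ⟨k, p⟩ := x
  rw [nb_eq] at h; simp only [nb, add_sub_cancel_left] at h; revert p i j; decide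

def G : SimpleGraph V where
  Adj x y := ∃ j, y = nb x j
  symm := ⟨by
    rintro ⟨k, p⟩ _ ⟨i, rfl⟩
    simp only [nb_eq]; simp only [nb, sub_add_cancel_left]; revert p i; decide⟩
  loopless := ⟨by rintro ⟨k, p⟩; simp only [nb_eq, sub_self]; revert p; decide⟩

def aut (e : V ≃ V) (h : ∀ x j, e (nb x j) = nb (e x) j) : G ≃g G :=
  ⟨e, by simp [G, ← h]⟩
def sh (n : ℤ) : G ≃g G := aut ((Equiv.addRight n).prodCongr (.refl _)) fun x j => by
  simp [nb, Prod.map, add_right_comm]
def fl : G ≃g G := aut ((Equiv.neg ℤ).prodCongr (Equiv.boolNot.prodCongr (.refl _)))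
  fun ⟨k, p⟩ j => by
    rw [nb_eq]; simp [nb, Prod.map]; revert p j; decide

lemma flow {O : Unit → V → V → Prop} (h : IsBalanced G 2 O) (k : ℤ) :
    O () (k, true, 0) (k + 1, false, 0) ↔ O () (k - 1, true, 0) (k, false, 0) := by
  obtain ⟨h1, h2, h3⟩ := h
  let o : V → V → ℕ := fun x y => if O () x y then 1 else 0
  have a : ∀ x, ∑ j, o x (nb x j) = 2 := fun x => by
    have := (h3 x).1
    rw [show {y | O () x y} = nb x '' ↑(Finset.univ.filter fun j => O () x (nb x j)) by
      ext y; have := h1 x y; simp [G] at this ⊢; grind, (nb_inj x).encard_image,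
      encard_coe_eq_coe_finsetCard, Finset.card_filter] at this
    exact_mod_cast this
  have b : ∀ x j, o x (nb x j) + o (nb x j) x = 1 := fun x j => by
    have := h2 x _ ⟨j, rfl⟩
    simp only [o]; split_ifs <;> tauto
  have c := fun p : Bool × Fin 4 => a (k, p)
  have d := fun (p : Bool × Fin 4) j => b (k, p) j
  simp [Fin.forall_fin_succ, Fin.sum_univ_four, nb, nb0, ← sub_eq_add_neg] at c d
  have : o (k, true, 0) (k + 1, false, 0) = o (k - 1, true, 0) (k, false, 0) := by omega
  simp only [o] at this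
  split_ifs at this <;> simp_all

lemma no_bal : ¬ HasFIID G Unit (IsBalanced G 2) := by
  rintro ⟨F, h1, h2, h3⟩
  refine not_half (h1 () (0, true, 0) (1, false, 0)) (fun s => ?_) ?_
  · obtain ⟨n, hn⟩ := (s.image fun v => v.1.natAbs).bddAbove
    have hn : ∀ v ∈ s, v.1.natAbs ≤ n := fun v hv => hn (Finset.mem_image_of_mem _ hv)
    refine ⟨(sh (2 * n + 1 : ℕ)).toEquiv, fun v hv hv' => ?_, h3.mono fun ω h => propext ?_⟩
    · have := hn _ hv
      have := hn _ hv'
      simp [sh, aut] at this; omega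
    · have := h2 (sh (2 * n + 1 : ℕ)).symm ω () (sh (2 * n + 1 : ℕ) (0, true, 0))
        (sh (2 * n + 1 : ℕ) (1, false, 0))
      simp only [RelIso.symm_apply_apply] at this
      refine this.trans ?_
      generalize 2 * n + 1 = m
      induction m with
      | zero => rfl
      | succ m ih => exact Iff.trans (by simpa [sh, aut, add_comm] using flow h (m + 1)) ih
  · have a := (mp fl.symm.toEquiv).measureReal_preimage
      (h1 () (0, false, 0) (-1, true, 0)).nullMeasurableSet
    rw [show (fun ω => ω ∘ fl.symm.toEquiv) ⁻¹' {ω | F ω () (0, false, 0) (-1, true, 0)} =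
      {ω | F ω () (0, true, 0) (1, false, 0)} from
      Set.ext fun ω => h2 fl ω () (0, true, 0) (1, false, 0),
      measureReal_congr (s := {ω | F ω () (0, false, 0) (-1, true, 0)})
        (t := {ω | F ω () (0, true, 0) (1, false, 0)}ᶜ) (h3.mono fun ω h => propext
        ((h.2.1 (0, false, 0) (-1, true, 0) ⟨0, rfl⟩).trans (not_congr (flow h 0).symm))),
      probReal_compl_eq_one_sub (h1 _ _ _)] at a
    linarith

theorem result : ∃ (d : ℕ) (V : Type) (_ : Countable V) (G : SimpleGraph V), 1 ≤ d ∧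
    (∀ v, (G.neighborSet v).encard = 2 * d) ∧
    (∃ S : Set V, S.Finite ∧ ∀ v, ∃ φ : G ≃g G, φ v ∈ S) ∧ HasFIID G Unit (IsMatching G) ∧
    ¬ HasFIID G (Fin d) (IsSchreier G d) ∧ ¬ HasFIID G Unit (IsBalanced G d) := by
  refine ⟨2, V, inferInstance, G, by norm_num, fun v => ?_, ⟨{0} ×ˢ univ,
    (finite_singleton _).prod finite_univ, fun v => ⟨sh (-v.1), by simp [sh, aut]⟩⟩,
    ⟨fun _ _ x y => G.Adj x y ∧ ¬ ∃ z, G.Adj x z ∧ G.Adj y z, fun _ _ _ => .const _,
      fun φ _ _ x y => and_congr φ.map_adj_iff (not_congr (φ.surjective.exists.trans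
        (by simp only [φ.map_adj_iff]))), .of_forall fun _ =>
      ⟨fun x y h => ⟨h.1, h.1.symm, by simpa only [and_comm] using h.2⟩, fun ⟨k, p⟩ => ?_⟩⟩,
    fun ⟨F, h1, h2, h3⟩ => no_bal ⟨fun ω _ x y => ∃ c, F ω c x y, fun _ x y => ?_,
      fun φ ω _ x y => by simp only [h2], h3.mono fun ω => bal⟩, no_bal⟩
  · rw [show G.neighborSet v = nb v '' univ by ext; simp [G, eq_comm], (nb_inj v).encard_image]
    simp; rfl
  · have : ∀ j, (¬ ∃ z, G.Adj (k, p) z ∧ G.Adj (nb (k, p) j) z) ↔ j = p.2 := fun j => by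
      simp only [G, not_exists, not_and, forall_exists_index, forall_eq_apply_imp_iff,
        nb_eq (x := nb _ _)]
      simp only [nb, add_sub_add_left_eq_sub]; revert p j; decide
    refine ⟨nb (k, p) p.2, ⟨⟨_, rfl⟩, (this _).2 rfl⟩, ?_⟩
    rintro _ ⟨⟨j, rfl⟩, h⟩
    rw [(this j).1 h]
  · rw [ofPred_exists]; exact .iUnion fun c => h1 c x y

end Pool.Agent.Results.MP_71d783_pr.Chain
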